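import Pool.Agent.H967R2.PosMain

set_option autoImplicit false

/-!
# Linear forms in positive integers: the exponent can be the golden ratio, in every dimension

For every `m ≥ 2` there is `Θ ∈ ℝ^m` with `1, θ¹, …, θ^m` linearly independent over `ℤ` and
`ω₊(Θ) ≤ (1 + √5)/2 < 2`.

Construction. Let `D_0 = 1, p_0 = 0, ν_0 = 0`. Inductively choose a real number
`α = p_k/D_k + ζ/D_k` with `ζ` of size `D_k^{-1-φ}` (`φ` the golden ratio) whose continued fraction
continues that of `p_k/D_k` by one large partial quotient followed by ones; let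
`p_{k+1}/D_{k+1}` be a very good rational approximation to `α` with huge denominator, and
`ν_{k+1} = ν_k + D_k w_k` with `w_k = (1,…,1) + e_{k mod m}`. Then
`Θ = lim (p_k/D_k) ν_k mod 1 = ∑ δ_k ν_{k+1}`, `δ_k = p_{k+1}/D_{k+1} - p_k/D_k`.
-/

namespace Pool.Agent.Results.MP_fe6546_nt.GoldenExponent

open Finset Filter

/-- The distance of a real number to the nearest integer. -/
noncomputable def dist1 (y : ℝ) : ℝ := |y - round y|

/-- `ψ_{+;Θ}(t)`: the minimum of `‖θ¹x₁ + … + θ^m x_m‖` over positive integers `x_i ≤ t`. -/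
noncomputable def psi {m : ℕ} (Θ : Fin m → ℝ) (t : ℝ) : ℝ :=
  sInf {r : ℝ | ∃ x : Fin m → ℕ, (∀ i, 1 ≤ x i ∧ (x i : ℝ) ≤ t) ∧
    r = dist1 (∑ i, Θ i * (x i : ℝ))}

/-- `ω₊(Θ) = sup {γ : liminf_{t → ∞} t^γ ψ_{+;Θ}(t) < ∞}`. -/
noncomputable def omegaPlus {m : ℕ} (Θ : Fin m → ℝ) : EReal :=
  sSup {g : EReal | ∃ γ : ℝ, g = (γ : EReal) ∧
    liminf (fun t : ℝ => ((t ^ γ * psi Θ t : ℝ) : EReal)) atTop < ⊤}

open Pool.Agent.H967R2.PosForm Pool.Agent.H967R2.PosForm.Data

lemma dist1_eq (y : ℝ) : dist1 y = nint y := rfl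

/-- independence -/
lemma indep (S : Data) {m : ℕ} (hm : 0 < m) :
    LinearIndependent ℤ (Fin.cons 1 (S.Θ m) : Fin (m + 1) → ℝ) := by
  rw [Fintype.linearIndependent_iff]
  intro g hg
  rw [Fin.sum_univ_succ] at hg
  simp only [Fin.cons_zero, Fin.cons_succ] at hg
  set b : Fin m → ℤ := fun i => g i.succ with hb
  have hsum : ∑ i, S.Θ m i * (b i : ℝ) = -(g 0 : ℝ) := by
    have h1 : ∑ i, S.Θ m i * (b i : ℝ) = ∑ i : Fin m, g i.succ • S.Θ m i := by
      refine Finset.sum_congr rfl fun i _ => ?_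
      rw [zsmul_eq_mul, mul_comm]
    rw [h1]
    rw [zsmul_eq_mul, mul_one] at hg
    linarith
  -- for large k, N_k b = 0
  obtain ⟨K, hK⟩ := exists_nat_gt (9 * (nrm b : ℝ))
  have hnb : 0 ≤ nrm b := nrm_nonneg b
  have hnb' : (0 : ℝ) ≤ nrm b := by exact_mod_cast hnb
  have hN : ∀ k, K ≤ k → S.N m (k + 1) b = 0 := by
    intro k hk
    obtain ⟨z, hz⟩ := S.stage b (k + 1)
    rw [hsum] at hz
    have hE := S.E_abs (k + 1) b
    have hD := S.Dpos' (k + 1)
    have hD1 := S.Dpos (k + 1)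
    have hX := S.DleX (k + 1)
    have hδ := S.δD_upper (k + 1)
    have hKD : 9 * (nrm b : ℝ) < S.D (k + 1) := by
      have h1 : (K : ℝ) ≤ S.D (k + 1) := by
        have h2 := S.Dgek (k + 1)
        have h3 : K ≤ S.D (k + 1) := by omega
        exact_mod_cast h3
      linarith
    have hE2 : |S.E m (k + 1) b| * S.D (k + 1) < 1 := by
      calc |S.E m (k + 1) b| * S.D (k + 1)
          ≤ (6 * (S.δ (k + 1) * S.D (k + 1)) * nrm b) * S.D (k + 1) := by gcongr
        _ ≤ (6 * (3 / (2 * (S.D (k + 1) : ℝ) * (S.D (k + 1) : ℝ) ^ gold)) * nrm b) * S.D (k + 1) := by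
            gcongr
        _ ≤ (6 * (3 / (2 * (S.D (k + 1) : ℝ) * (S.D (k + 1) : ℝ))) * nrm b) * S.D (k + 1) := by
            gcongr
        _ = 9 * nrm b / S.D (k + 1) := by field_simp; ring
        _ < 1 := by
            rw [div_lt_one hD]
            exact hKD
    -- D * E is an integer
    have hint : (S.D (k + 1) : ℝ) * S.E m (k + 1) b
        = ((-(g 0) * S.D (k + 1) - S.p (k + 1) * S.N m (k + 1) b - z * S.D (k + 1) : ℤ) : ℝ) := by
      have h1 : S.E m (k + 1) b = -(g 0 : ℝ) - (S.p (k + 1) : ℝ) / S.D (k + 1) * S.N m (k + 1) b - z := by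
        linarith
      rw [h1]
      push_cast
      field_simp
    have hzero : (-(g 0) * S.D (k + 1) - S.p (k + 1) * S.N m (k + 1) b - z * S.D (k + 1) : ℤ) = 0 := by
      by_contra hne
      have h1 : (1 : ℝ) ≤ |((-(g 0) * S.D (k + 1) - S.p (k + 1) * S.N m (k + 1) b - z * S.D (k + 1) : ℤ) : ℝ)| := by
        have := Int.one_le_abs hne
        exact_mod_cast this
      rw [← hint, abs_mul, abs_of_pos hD] at h1
      linarith
    have hdvd : (S.D (k + 1) : ℤ) ∣ S.N m (k + 1) b := by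
      have h2 : (S.D (k + 1) : ℤ) ∣ S.p (k + 1) * S.N m (k + 1) b := ⟨-(g 0) - z, by linarith⟩
      exact (S.cop (k + 1)).symm.dvd_of_dvd_mul_left h2
    by_contra hne
    have h3 := Int.le_of_dvd (abs_pos.mpr hne) ((dvd_abs _ _).mpr hdvd)
    have h4 := S.N_abs k b
    have h5 : (S.D (k + 1) : ℤ) ≤ 3 * S.D k * nrm b := h3.trans h4
    have h6 : (72 * S.D k : ℕ) ≤ S.D (k + 1) := S.grow72 k
    have h7 : (72 * (S.D k) ^ 3 : ℕ) ≤ S.D (k + 1) := S.grow3 k
    have h8 : (K : ℝ) ≤ S.D k := by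
      have h2 := S.Dgek k
      have h3 : K ≤ S.D k := by omega
      exact_mod_cast h3
    have h9 : (nrm b : ℝ) ≤ S.D k := by linarith
    have h10 : (S.D (k + 1) : ℝ) ≤ 3 * S.D k * nrm b := by exact_mod_cast h5
    have h11 : (72 : ℝ) * (S.D k : ℝ) ^ 3 ≤ S.D (k + 1) := by exact_mod_cast h7
    have h12 := S.Dpos k
    nlinarith [mul_le_mul_of_nonneg_left h9 (by positivity : (0 : ℝ) ≤ 3 * S.D k),
      mul_le_mul_of_nonneg_left h12 (by positivity : (0 : ℝ) ≤ (S.D k : ℝ) ^ 2)]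
  have hW : ∀ k, K + 1 ≤ k → Data.W k b = 0 := by
    intro k hk
    obtain ⟨k', rfl⟩ : ∃ k', k = k' + 1 := ⟨k - 1, by omega⟩
    have h1 := S.N_succ (k' + 1) b
    rw [hN (k' + 1) (by omega), hN k' (by omega)] at h1
    have hD : (S.D (k' + 1) : ℤ) ≠ 0 := by
      have := S.D1 (k' + 1)
      positivity
    have h2 : (S.D (k' + 1) : ℤ) * Data.W (k' + 1) b = 0 := by linarith
    exact (mul_eq_zero.mp h2).resolve_left hD
  -- W k b = ∑ b + b (k mod m)
  have hWf : ∀ k, ∀ hk : k % m < m, Data.W k b = ∑ i, b i + b ⟨k % m, hk⟩ := by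
    intro k hk
    unfold Data.W Data.w
    have h1 : ∀ i : Fin m, ((if k % m = (i : ℕ) then 2 else 1 : ℕ) : ℤ) * b i
        = b i + if i = ⟨k % m, hk⟩ then b i else 0 := by
      intro i
      by_cases h : k % m = (i : ℕ)
      · have h2 : i = ⟨k % m, hk⟩ := Fin.ext h.symm
        rw [if_pos h, if_pos h2]
        push_cast
        ring
      · have h2 : i ≠ ⟨k % m, hk⟩ := fun h3 => h (by rw [h3])
        rw [if_neg h, if_neg h2]
        push_cast
        ring
    rw [Finset.sum_congr rfl fun i _ => h1 i, Finset.sum_add_distrib]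
    simp
  have hbi : ∀ i : Fin m, b i = -∑ j, b j := by
    intro i
    have hmod : (i + m * (K + 1)) % m = i := by
      rw [Nat.add_mul_mod_self_left]
      exact Nat.mod_eq_of_lt i.2
    have h1 := hW (i + m * (K + 1)) (by nlinarith)
    have h2 := hWf (i + m * (K + 1)) (by rw [hmod]; exact i.2)
    rw [h1] at h2
    have h3 : (⟨(i + m * (K + 1)) % m, by rw [hmod]; exact i.2⟩ : Fin m) = i := Fin.ext hmod
    rw [h3] at h2
    linarith
  have hs0 : ∑ j, b j = 0 := by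
    have h1 : ∑ j, b j = ∑ _j : Fin m, (-∑ j, b j) := Finset.sum_congr rfl fun i _ => hbi i
    rw [Finset.sum_const, Finset.card_univ, Fintype.card_fin, nsmul_eq_mul] at h1
    have h2 : (1 + (m : ℤ)) * ∑ j, b j = 0 := by linarith
    rcases mul_eq_zero.mp h2 with h | h
    · exfalso
      have : (0 : ℤ) ≤ m := by positivity
      linarith
    · exact h
  have hb0 : ∀ i, b i = 0 := by
    intro i
    rw [hbi i, hs0, neg_zero]
  intro i
  refine Fin.cases ?_ (fun j => hb0 j) i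
  have h1 : ∑ i, S.Θ m i * (b i : ℝ) = 0 := by
    apply Finset.sum_eq_zero
    intro i _
    rw [hb0 i]
    simp
  rw [h1] at hsum
  have h2 : (g 0 : ℝ) = 0 := by linarith
  exact_mod_cast h2

/-- For every `m ≥ 2` there is `Θ ∈ ℝ^m` with `1, θ¹, …, θ^m` linearly independent over `ℤ` and
`ω₊(Θ) ≤ (1 + √5)/2`, in particular `ω₊(Θ) < 2`. Moreover, for this `Θ` and every
`γ > (1 + √5)/2` there is `c > 0` with `‖θ¹x₁ + … + θ^m x_m‖ ≥ c (max x_i)^{-γ}` for all positive
integers `x₁, …, x_m`. -/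
theorem result (m : ℕ) (hm : 2 ≤ m) :
    ∃ Θ : Fin m → ℝ,
      LinearIndependent ℤ (Fin.cons 1 Θ : Fin (m + 1) → ℝ) ∧
      omegaPlus Θ ≤ (((1 + √5) / 2 : ℝ) : EReal) ∧
      omegaPlus Θ < 2 ∧
      ∀ γ : ℝ, (1 + √5) / 2 < γ → ∃ c : ℝ, 0 < c ∧
        ∀ (x : Fin m → ℕ) (t : ℝ), (∀ i, 1 ≤ x i ∧ (x i : ℝ) ≤ t) →
          c * t ^ (-γ) ≤ dist1 (∑ i, Θ i * (x i : ℝ)) := by
  obtain ⟨S⟩ := exists_data
  have hm0 : 0 < m := by omega
  have hmr : (0 : ℝ) < m := by exact_mod_cast hm0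
  have key : ∀ γ : ℝ, (1 + √5) / 2 < γ → ∃ c : ℝ, 0 < c ∧
        ∀ (x : Fin m → ℕ) (t : ℝ), (∀ i, 1 ≤ x i ∧ (x i : ℝ) ≤ t) →
          c * t ^ (-γ) ≤ dist1 (∑ i, S.Θ m i * (x i : ℝ)) := by
    intro γ hγ
    have hγ0 : 0 < γ := by
      have := gold_gt
      unfold gold at this
      linarith
    obtain ⟨c, hc0, hc⟩ := S.lower (m := m) γ hγ
    refine ⟨c * (m : ℝ) ^ (-γ), by positivity, ?_⟩
    intro x t hx
    have ht1 : 1 ≤ t := by
      have h1 := (hx ⟨0, hm0⟩).1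
      have h2 := (hx ⟨0, hm0⟩).2
      have h3 : (1 : ℝ) ≤ x ⟨0, hm0⟩ := by exact_mod_cast h1
      linarith
    have hs1 : (1 : ℝ) ≤ ∑ i, (x i : ℝ) := by
      have h1 : (x ⟨0, hm0⟩ : ℝ) ≤ ∑ i, (x i : ℝ) :=
        Finset.single_le_sum (f := fun i => (x i : ℝ)) (fun i _ => by positivity) (Finset.mem_univ _)
      have h3 : (1 : ℝ) ≤ x ⟨0, hm0⟩ := by exact_mod_cast (hx ⟨0, hm0⟩).1
      linarith
    have hst : ∑ i, (x i : ℝ) ≤ m * t := by
      calc ∑ i, (x i : ℝ) ≤ ∑ _i : Fin m, t := Finset.sum_le_sum fun i _ => (hx i).2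
        _ = m * t := by simp
    refine le_trans ?_ (hc x _ rfl hs1)
    rw [mul_assoc, ← Real.mul_rpow hmr.le (by linarith)]
    apply mul_le_mul_of_nonneg_left _ hc0.le
    exact Real.rpow_le_rpow_of_nonpos (by linarith) hst (by linarith)
  have homega : omegaPlus (S.Θ m) ≤ (((1 + √5) / 2 : ℝ) : EReal) := by
    unfold omegaPlus
    apply sSup_le
    rintro g ⟨γ, rfl, hlim⟩
    by_contra hcon
    push Not at hcon
    have hγ : (1 + √5) / 2 < γ := by exact_mod_cast hcon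
    obtain ⟨c, hc0, hc⟩ := key (((1 + √5) / 2 + γ) / 2) (by linarith)
    set γ' : ℝ := ((1 + √5) / 2 + γ) / 2 with hγ'
    have htend : Tendsto (fun t : ℝ => t ^ γ * psi (S.Θ m) t) atTop atTop := by
      have h1 : Tendsto (fun t : ℝ => c * t ^ (γ - γ')) atTop atTop := by
        apply Tendsto.const_mul_atTop hc0
        apply tendsto_rpow_atTop
        rw [hγ']
        linarith
      apply tendsto_atTop_mono' _ _ h1
      filter_upwards [eventually_ge_atTop (1 : ℝ)] with t ht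
      have ht0 : 0 < t := by linarith
      have hpsi : c * t ^ (-γ') ≤ psi (S.Θ m) t := by
        unfold psi
        apply le_csInf
        · exact ⟨_, fun _ => 1, fun i => ⟨le_rfl, by simpa using ht⟩, rfl⟩
        · rintro r ⟨x, hx, rfl⟩
          exact hc x t hx
      calc c * t ^ (γ - γ') = t ^ γ * (c * t ^ (-γ')) := by
            rw [sub_eq_add_neg, Real.rpow_add ht0]
            ring
        _ ≤ t ^ γ * psi (S.Θ m) t := by
            apply mul_le_mul_of_nonneg_left hpsi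
            exact (Real.rpow_pos_of_pos ht0 _).le
    have htop : Tendsto (fun t : ℝ => ((t ^ γ * psi (S.Θ m) t : ℝ) : EReal)) atTop (nhds ⊤) :=
      EReal.tendsto_coe_nhds_top_iff.mpr htend
    rw [htop.liminf_eq] at hlim
    exact lt_irrefl _ hlim
  refine ⟨S.Θ m, indep S hm0, homega, lt_of_le_of_lt homega ?_, key⟩
  have h1 : ((1 + √5) / 2 : ℝ) < 2 := by
    have := gold_lt
    unfold gold at this
    linarith
  have h2 : (((1 + √5) / 2 : ℝ) : EReal) < ((2 : ℝ) : EReal) := EReal.coe_lt_coe_iff.mpr h1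
  exact h2

end Pool.Agent.Results.MP_fe6546_nt.GoldenExponent
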